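import Pool.Agent.Leo3.Stmts

/-!
# Squad leo3: module EIS (a class of order 3 gives a binary cubic form)
-/

open NumberField IsDedekindDomain WithZero Module Polynomial
open Pool.Agent.Helper85_Leo
open scoped nonZeroDivisors

namespace Pool.Agent.Leo3.H26

open Pool.Agent.Leo3

/-- If `P ^ 3 = k ^ 2` then `P` is a square and `k` is a cube. -/
theorem cube_sq {P k : ℤ} (hP : 0 < P) (h : P ^ 3 = k ^ 2) : ∃ t : ℤ, t ≠ 0 ∧ k = t ^ 3 := by
  have h1 : P ^ 2 ∣ k ^ 2 := ⟨P, by rw [← h]; ring⟩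
  have h2 : P ∣ k := (Int.pow_dvd_pow_iff (by norm_num)).1 h1
  obtain ⟨t, ht⟩ := h2
  refine ⟨t, ?_, ?_⟩
  · rintro rfl
    rw [mul_zero] at ht
    rw [ht] at h
    have : 0 < P ^ 3 := by positivity
    rw [h] at this
    norm_num at this
  · have h3 : P ^ 2 * P = P ^ 2 * t ^ 2 := by
      calc P ^ 2 * P = P ^ 3 := by ring
        _ = k ^ 2 := h
        _ = P ^ 2 * t ^ 2 := by rw [ht]; ring
    have h4 : P = t ^ 2 := mul_left_cancel₀ (by positivity) h3
    rw [ht, h4]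
    ring

/-- EIS -/
theorem eis (hQ : QuaStmt) (hC : CubStmt) : EisStmt := by
  intro F _ _ m s hF hs hm hm4 h3
  obtain ⟨c, hcs, hfix, hcm, hcn, hI⟩ := hQ F m s hF hs hm hm4
  obtain ⟨x, hx⟩ := exists_prime_orderOf_dvd_card 3 h3
  obtain ⟨⟨I, hI0⟩, rfl⟩ := ClassGroup.mk0_surjective x
  have hIne : I ≠ ⊥ := mem_nonZeroDivisors_iff_ne_zero.1 hI0
  have hnp : ¬ I.IsPrincipal := by
    intro hp
    rw [← ClassGroup.mk0_eq_one_iff hI0] at hp
    rw [hp, orderOf_one] at hx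
    norm_num at hx
  have hI3 : (I ^ 3).IsPrincipal := by
    have h1 : ClassGroup.mk0 (⟨I, hI0⟩ : (Ideal (𝓞 F))⁰) ^ 3 = 1 := by
      rw [← hx]
      exact pow_orderOf_eq_one _
    rw [← map_pow] at h1
    exact (ClassGroup.mk0_eq_one_iff (pow_mem hI0 3)).1 h1
  obtain ⟨⟨β, hβ⟩⟩ := hI3
  have hβ' : I ^ 3 = Ideal.span {β} := hβ
  have hβ0 : β ≠ 0 := by
    rintro rfl
    rw [Ideal.span_singleton_eq_bot.2 rfl] at hβ'
    exact hIne (pow_eq_zero_iff (by norm_num) |>.1 hβ')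
  obtain ⟨u, v, hu, hv, hu0, -, huv, hred⟩ := hI I hIne
  have hB0 : (Ideal.absNorm I : ℕ) ≠ 0 := by
    rw [Ne, Ideal.absNorm_eq_zero_iff]
    exact hIne
  have hnβ : (β : F) * c β = ((1 : ℕ) : F) * ((Ideal.absNorm I : ℕ) : F) ^ 3 := by
    rw [hcn, ← hβ', map_pow]
    push_cast
    ring
  obtain ⟨a₀, a₁, a₂, a₃, hform, hPe, hMe⟩ := hC F m s hF hs hm hm4 c hcs hcm I u v β 1
    one_ne_zero hβ0 hu hv huv (fun y hy => by
      rw [hβ', Ideal.mem_span_singleton] at hy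
      rw [Nat.cast_one, one_mul]
      exact hy) hnβ
  rw [hcn] at hPe
  have hP' : hP a₀ a₁ a₂ * (Ideal.absNorm I : ℤ) = (Ideal.absNorm (Ideal.span {u}) : ℤ) := by
    have : ((hP a₀ a₁ a₂ * (Ideal.absNorm I : ℤ) : ℤ) : F) =
        ((Ideal.absNorm (Ideal.span {u}) : ℤ) : F) := by
      push_cast
      rw [hPe]
      push_cast
      ring
    exact_mod_cast this
  have hNu0 : (Ideal.absNorm (Ideal.span {u}) : ℕ) ≠ 0 := by
    rw [Ne, Ideal.absNorm_eq_zero_iff, Ideal.span_singleton_eq_bot]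
    exact hu0
  have hBpos : (0 : ℤ) < (Ideal.absNorm I : ℤ) := by
    have := Nat.pos_of_ne_zero hB0
    exact_mod_cast this
  have hNpos : (0 : ℤ) < (Ideal.absNorm (Ideal.span {u}) : ℤ) := by
    have := Nat.pos_of_ne_zero hNu0
    exact_mod_cast this
  have hPpos : 0 < hP a₀ a₁ a₂ := by
    rw [← hP'] at hNpos
    exact pos_of_mul_pos_left hNpos hBpos.le
  refine ⟨a₀, a₁, a₂, a₃, ?_, hPpos, ?_, by rw [hMe]; push_cast; ring⟩
  · rintro rfl
    have hu3 : u ^ 3 ∈ I ^ 3 := Ideal.pow_mem_pow hu 3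
    rw [hβ', Ideal.mem_span_singleton] at hu3
    obtain ⟨k', hk'⟩ := hu3
    have hβF : (β : F) ≠ 0 := by
      intro h
      exact hβ0 (by exact_mod_cast h)
    have hkF : (k' : F) = (u : F) ^ 3 / β := by
      rw [eq_div_iff hβF, mul_comm]
      have := congrArg (fun z : 𝓞 F => (z : F)) hk'
      push_cast at this
      rw [this]
    have h10 := hform 1 0
    have hfx : c (k' : F) = k' := by
      rw [hkF]
      have e1 : (((1 : ℕ) : F) * (((1 : ℤ) : F) * (u : F) + ((0 : ℤ) : F) * (v : F)) ^ 3 / β) =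
          (u : F) ^ 3 / β := by
        push_cast
        ring
      rw [e1] at h10
      have e2 : ((0 * 1 ^ 3 + 3 * a₁ * 1 ^ 2 * 0 + 3 * a₂ * 1 * 0 ^ 2 + a₃ * 0 ^ 3 : ℤ) : F) * s =
          0 := by
        push_cast
        ring
      rw [e2] at h10
      exact (sub_eq_zero.1 h10.symm).symm
    obtain ⟨k, hk⟩ := hfix k' hfx
    have hkO : k' = (k : 𝓞 F) := by
      apply NumberField.RingOfIntegers.ext
      rw [hk]
      simp
    have hspan : Ideal.span {u} ^ 3 = I ^ 3 * Ideal.span {(k : 𝓞 F)} := by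
      rw [hβ', Ideal.span_singleton_mul_span_singleton, Ideal.span_singleton_pow, hk', hkO]
    have hnk : (Ideal.absNorm (Ideal.span {(k : 𝓞 F)}) : ℤ) = k ^ 2 := by
      have h1 := hcn (k : 𝓞 F)
      have h2 : ((k ^ 2 : ℤ) : F) = ((Ideal.absNorm (Ideal.span {(k : 𝓞 F)}) : ℤ) : F) := by
        push_cast
        rw [← h1]
        have h3 : (((k : 𝓞 F)) : F) = (k : F) := by simp
        rw [h3, map_intCast]
        ring
      exact_mod_cast h2.symm
    have hNorm : (Ideal.absNorm (Ideal.span {u}) : ℤ) ^ 3 = (Ideal.absNorm I : ℤ) ^ 3 * k ^ 2 := by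
      rw [← hnk]
      have := congrArg Ideal.absNorm hspan
      rw [map_mul, map_pow, map_pow] at this
      exact_mod_cast this
    have hPk : (hP 0 a₁ a₂) ^ 3 = k ^ 2 := by
      rw [← hP'] at hNorm
      have h1 : (Ideal.absNorm I : ℤ) ^ 3 * (hP 0 a₁ a₂) ^ 3 = (Ideal.absNorm I : ℤ) ^ 3 * k ^ 2 := by
        rw [← hNorm]
        ring
      exact mul_left_cancel₀ (by positivity) h1
    obtain ⟨t, ht0, ht⟩ := cube_sq hPpos hPk
    have hcube : Ideal.span {u} ^ 3 = (I * Ideal.span {(t : 𝓞 F)}) ^ 3 := by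
      rw [hspan, ht, mul_pow, Ideal.span_singleton_pow]
      push_cast
      rfl
    have heq : Ideal.span {u} = I * Ideal.span {(t : 𝓞 F)} := by
      refine dvd_antisymm ?_ ?_
      · rw [← UniqueFactorizationMonoid.pow_dvd_pow_iff_dvd (n := 3) (by norm_num), hcube]
      · rw [← UniqueFactorizationMonoid.pow_dvd_pow_iff_dvd (n := 3) (by norm_num), hcube]
    have hut : u ∈ Ideal.span {(t : 𝓞 F)} := by
      have h1 : u ∈ Ideal.span {u} := Ideal.mem_span_singleton_self u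
      rw [heq] at h1
      exact Ideal.mul_le_right h1
    rw [Ideal.mem_span_singleton] at hut
    obtain ⟨w, hw⟩ := hut
    have htO : (t : 𝓞 F) ≠ 0 := by exact_mod_cast ht0
    have hIw : Ideal.span {(t : 𝓞 F)} * Ideal.span {w} = Ideal.span {(t : 𝓞 F)} * I := by
      rw [Ideal.span_singleton_mul_span_singleton, ← hw, heq, mul_comm]
    have hIw' : Ideal.span {w} = I := mul_left_cancel₀ (by
      rw [Ne, Ideal.zero_eq_bot, Ideal.span_singleton_eq_bot]
      exact htO) hIw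
    exact hnp ⟨⟨w, hIw'.symm⟩⟩
  · have h1 : 3 * ((Ideal.absNorm (Ideal.span {u}) : ℤ)) ^ 2 ≤ m * (Ideal.absNorm I : ℤ) ^ 2 := by
      exact_mod_cast hred
    rw [← hP'] at h1
    have h2 : (3 * (hP a₀ a₁ a₂) ^ 2) * (Ideal.absNorm I : ℤ) ^ 2 ≤
        m * (Ideal.absNorm I : ℤ) ^ 2 := by
      calc _ = 3 * (hP a₀ a₁ a₂ * (Ideal.absNorm I : ℤ)) ^ 2 := by ring
        _ ≤ _ := h1
    exact le_of_mul_le_mul_right h2 (by positivity)

end Pool.Agent.Leo3.H26
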